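import Mathlib

/-!
# Project GF: values of G-functions in short windows of fibres. Definitions and statements of the tasks

A `GSys` is a finite family of power series with rational coefficients, closed under derivation up to the
denominator `T`, with the arithmetic conditions of Siegel and Galochkin, the constant `C` being a bound for
everything.
-/

set_option autoImplicit false

open PowerSeries

namespace Pool.Agent.Y113

/-- the divided derivative `f ↦ f^(k) / k!` of a power series -/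
noncomputable def hd (k : ℕ) (f : ℚ⟦X⟧) : ℚ⟦X⟧ :=
  PowerSeries.mk fun m => ((m + k).choose k : ℚ) * coeff (m + k) f

/-- an integer polynomial as a power series -/
noncomputable def ps (P : Polynomial ℤ) : ℚ⟦X⟧ := ((P.map (Int.castRingHom ℚ) : Polynomial ℚ) : ℚ⟦X⟧)

/-- the value of a power series at `1 / t` -/
noncomputable def ev (t : ℝ) (f : ℚ⟦X⟧) : ℝ := ∑' m : ℕ, ((coeff m f : ℚ) : ℝ) * (1 / t) ^ m

/-- A family of power series which is closed under derivation (with denominator `T`), with Galochkin's condition. -/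
structure GSys {ι : Type} [Fintype ι] (q : ℕ) (C : ℝ) (T : Polynomial ℤ) (y : ι → ℚ⟦X⟧) : Prop where
  one_le : 1 ≤ C
  degT : T.natDegree ≤ q
  sizeT : ∀ l, |((T.coeff l : ℤ) : ℝ)| ≤ C
  size : ∀ i m, |((coeff m (y i) : ℚ) : ℝ)| ≤ C ^ (m + 1)
  den : ∀ m, ∃ d : ℕ, 0 < d ∧ (d : ℝ) ≤ C ^ (m + 1) ∧ ∀ i, ∀ j ≤ m, ∃ a : ℤ, (d : ℚ) * coeff j (y i) = a
  der : ∀ k, ∃ g : ℕ, 0 < g ∧ (g : ℝ) ≤ C ^ (k + 1) ∧ ∀ s ≤ k, ∃ G : ι → ι → Polynomial ℤ,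
    (∀ i j, (G i j).natDegree ≤ q * s) ∧ (∀ i j l, |(((G i j).coeff l : ℤ) : ℝ)| ≤ C ^ (k + 1)) ∧
    ∀ i, (g : ℚ⟦X⟧) * (ps T ^ s * hd s (y i)) = ∑ j, ps (G i j) * y j

/-- The main theorem on G-systems: linear independence over `ℚ` of the values at `1 / t`. -/
def T_G : Prop := ∀ N q : ℕ, ∃ E : ℕ, ∀ (ι : Type) [Fintype ι] (C : ℝ) (T : Polynomial ℤ) (y : ι → ℚ⟦X⟧) (i₀ : ι) (t : ℕ),
  Fintype.card ι ≤ N → GSys q C T y → y i₀ = 1 → LinearIndependent (Polynomial ℚ) y → (2 * C) ^ E ≤ (t : ℝ) →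
  Polynomial.aeval (1 / (t : ℝ)) T ≠ 0 → LinearIndependent ℚ (fun i => ev t (y i))

/-- products of G-systems with the same `T` -/
def T_prod : Prop := ∀ q : ℕ, ∃ E : ℕ, ∀ (ι κ : Type) [Fintype ι] [Fintype κ] (C : ℝ) (T : Polynomial ℤ)
  (y : ι → ℚ⟦X⟧) (w : κ → ℚ⟦X⟧), GSys q C T y → GSys q C T w →
  GSys q ((2 * C) ^ E) T (fun p : ι × κ => y p.1 * w p.2)

/-- enlarging `T`, `q` and `C` -/
def T_enl : Prop := ∀ q q' : ℕ, ∃ E : ℕ, ∀ (ι : Type) [Fintype ι] (C : ℝ) (T T' : Polynomial ℤ) (y : ι → ℚ⟦X⟧),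
  GSys q C T y → T'.natDegree ≤ q' → (∀ l, |((T'.coeff l : ℤ) : ℝ)| ≤ C) →
  GSys (q + q') ((2 * C) ^ E) (T * T') y

/-- another family with the same span over `ℤ` -/
def T_fam : Prop := ∀ (N q : ℕ), ∃ E : ℕ, ∀ (ι κ : Type) [Fintype ι] [Fintype κ] (C : ℝ) (T : Polynomial ℤ)
  (y : ι → ℚ⟦X⟧) (w : κ → ℚ⟦X⟧) (M : κ → ι → ℤ) (M' : ι → κ → ℤ), Fintype.card ι ≤ N → Fintype.card κ ≤ N →
  GSys q C T y → (∀ j i, |((M j i : ℤ) : ℝ)| ≤ C) → (∀ i j, |((M' i j : ℤ) : ℝ)| ≤ C) →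
  (∀ j, w j = ∑ i, (M j i : ℚ⟦X⟧) * y i) → (∀ i, y i = ∑ j, (M' i j : ℚ⟦X⟧) * w j) →
  GSys q ((2 * C) ^ E) T w

/-! ## The Legendre family -/

/-- `(2/π) K(s) = ∑ (binom(2n, n) / 4^n)² s^n` -/
noncomputable def Fs : ℚ⟦X⟧ := PowerSeries.mk fun n => ((n.centralBinom : ℚ) / 4 ^ n) ^ 2

/-- `∑ (binom(2n, n) / 4^n)² 2 (H_{2n} - H_n) s^n` -/
noncomputable def Hs : ℚ⟦X⟧ := PowerSeries.mk fun n =>
  ((n.centralBinom : ℚ) / 4 ^ n) ^ 2 * (2 * (harmonic (2 * n) - harmonic n))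

/-- `(2/π) E(s)` -/
noncomputable def Gs : ℚ⟦X⟧ := 2 * X * (1 - X) * (d⁄dX ℚ Fs) + (1 - X) * Fs

/-- the companion of `Hs` -/
noncomputable def Ks : ℚ⟦X⟧ := 2 * X * (1 - X) * (d⁄dX ℚ Hs) + (1 - X) * Hs + (1 - X) * Fs

/-- `z / (1 - g z)`, that is `1 / (t - g)` for `z = 1 / t` -/
noncomputable def sh (g : ℕ) : ℚ⟦X⟧ := PowerSeries.mk fun m => if m = 0 then 0 else (g : ℚ) ^ (m - 1)

/-- `log (1 - g z)` -/
noncomputable def lg (g : ℕ) : ℚ⟦X⟧ := PowerSeries.mk fun m => - ((g : ℚ) ^ m / m)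

/-- the first solution at `1 / (t - g)` -/
noncomputable def uu (g : ℕ) : ℚ⟦X⟧ := Fs.subst (sh g)
/-- its companion -/
noncomputable def vv (g : ℕ) : ℚ⟦X⟧ := Gs.subst (sh g)
/-- the second solution at `1 / (t - g)`, without the logarithm of `t` -/
noncomputable def ww (g : ℕ) : ℚ⟦X⟧ := PowerSeries.C (1 / 2 : ℚ) * (uu g * lg g) - Hs.subst (sh g)
/-- its companion -/
noncomputable def xx (g : ℕ) : ℚ⟦X⟧ := PowerSeries.C (1 / 2 : ℚ) * (vv g * lg g) - Ks.subst (sh g)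

/-- the four functions -/
noncomputable def four (g : ℕ) : Fin 4 → ℚ⟦X⟧ := ![uu g, vv g, ww g, xx g]

/-- the base family -/
noncomputable def base (g : ℕ) : Fin 5 → ℚ⟦X⟧ := ![1, uu g, vv g, ww g, xx g]

/-- `2 z (1 - g z) (1 - (g + 1) z)` -/
noncomputable def TT (g : ℕ) : Polynomial ℤ :=
  2 * Polynomial.X * (1 - Polynomial.C (g : ℤ) * Polynomial.X) * (1 - Polynomial.C ((g : ℤ) + 1) * Polynomial.X)

/-- the algebraic relation and the differential equations of the four functions -/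
def T_ode : Prop := ∀ g : ℕ, uu g * xx g - vv g * ww g = -1 ∧
  ps (TT g) * (d⁄dX ℚ (uu g)) = - (1 - ((g : ℚ⟦X⟧) + 1) * X) * uu g + (1 - (g : ℚ⟦X⟧) * X) * vv g ∧
  ps (TT g) * (d⁄dX ℚ (vv g)) = - (1 - ((g : ℚ⟦X⟧) + 1) * X) * uu g + (1 - ((g : ℚ⟦X⟧) + 1) * X) * vv g ∧
  ps (TT g) * (d⁄dX ℚ (ww g)) = - (1 - ((g : ℚ⟦X⟧) + 1) * X) * ww g + (1 - (g : ℚ⟦X⟧) * X) * xx g +
    (1 - (g : ℚ⟦X⟧) * X) * (1 - ((g : ℚ⟦X⟧) + 1) * X) * uu g ∧
  ps (TT g) * (d⁄dX ℚ (xx g)) = - (1 - ((g : ℚ⟦X⟧) + 1) * X) * ww g + (1 - ((g : ℚ⟦X⟧) + 1) * X) * xx g +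
    (1 - (g : ℚ⟦X⟧) * X) * (1 - ((g : ℚ⟦X⟧) + 1) * X) * vv g

/-- sizes and denominators of the coefficients of the four functions -/
def T_sd : Prop := ∃ E : ℕ, ∀ g : ℕ,
  (∀ i m, |((coeff m (base g i) : ℚ) : ℝ)| ≤ (((g : ℝ) + 2) ^ E) ^ (m + 1)) ∧
  (∀ m, ∃ d : ℕ, 0 < d ∧ (d : ℝ) ≤ (((g : ℝ) + 2) ^ E) ^ (m + 1) ∧ ∀ i, ∀ j ≤ m, ∃ a : ℤ,
    (d : ℚ) * coeff j (base g i) = a)

/-- the base family is a G-system -/
def T_base : Prop := ∃ E : ℕ, ∀ g : ℕ, GSys 3 (((g : ℝ) + 2) ^ E) (TT g) (base g)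

/-- exponents `(a, b, c, d)` with `a + b + c + d ≤ Δ` and `a = 0` or `d = 0` -/
def Ex (Δ : ℕ) : Type := {e : Fin 4 → Fin (Δ + 1) // (∑ i, (e i : ℕ)) ≤ Δ ∧ (e 0 = 0 ∨ e 3 = 0)}

instance (Δ : ℕ) : Fintype (Ex Δ) := by unfold Ex; infer_instance
instance (Δ : ℕ) : DecidableEq (Ex Δ) := by unfold Ex; infer_instance

/-- the monomial in the four functions -/
noncomputable def mon {Δ : ℕ} (g : ℕ) (e : Ex Δ) : ℚ⟦X⟧ := ∏ i, four g i ^ (e.1 i : ℕ)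

/-- all products over the shifts `g l` -/
noncomputable def pmon {k Δ : ℕ} (g : Fin k → ℕ) (b : Fin k → Ex Δ) : ℚ⟦X⟧ := ∏ l, mon (g l) (b l)

/-- the product of the `TT` -/
noncomputable def PT {k : ℕ} (g : Fin k → ℕ) : Polynomial ℤ := ∏ l, TT (g l)

/-- the products form a G-system -/
def T_fin : Prop := ∀ k Δ : ℕ, ∃ q E : ℕ, ∀ (H : ℕ) (g : Fin k → ℕ), (∀ l, g l ≤ H) →
  GSys q (((H : ℝ) + 2) ^ E) (PT g) (pmon (Δ := Δ) g)

/-- the products are linearly independent -/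
def T_LI : Prop := ∀ (k Δ : ℕ) (g : Fin k → ℕ), Function.Injective g →
  LinearIndependent (Polynomial ℚ) (pmon (Δ := Δ) g)

/-- complete elliptic integral of the first kind -/
noncomputable def KK (t : ℝ) : ℝ := ∫ θ in (0 : ℝ)..(Real.pi / 2), 1 / √(1 - t * Real.sin θ ^ 2)

/-- complete elliptic integral of the second kind -/
noncomputable def EE (t : ℝ) : ℝ := ∫ θ in (0 : ℝ)..(Real.pi / 2), √(1 - t * Real.sin θ ^ 2)

/-- the values of the four functions -/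
def T_ev : Prop := ∃ (E : ℕ) (α β : ℝ), β ≠ 0 ∧ ∀ (g : ℕ) (t : ℝ), ((g : ℝ) + 2) ^ E ≤ t →
  KK (1 / (t - g)) = Real.pi / 2 * ev t (uu g) ∧ EE (1 / (t - g)) = Real.pi / 2 * ev t (vv g) ∧
  KK (1 - 1 / (t - g)) = β * ev t (ww g) + (α + β / 2 * Real.log t) * ev t (uu g) ∧
  KK (1 - 1 / (t - g)) - EE (1 - 1 / (t - g)) = β * ev t (xx g) + (α + β / 2 * Real.log t) * ev t (vv g)

/-- the elimination of the constants: `m` numbers `e j` which are linearly independent over `ℚ`, `m` relations -/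
def T_elim : Prop := ∀ (m : ℕ) (σ : Type) [Fintype σ] (x : Fin m → σ → ℝ) (e : Fin m → ℂ) (τ : Fin m → Fin m → σ → ℚ),
  LinearIndependent ℚ (fun b : Fin m → σ => ∏ l, x l (b l)) → LinearIndependent ℚ e →
  (∀ l, ∑ j, ∑ b, (τ l j b : ℂ) * (x l b : ℂ) * e j = 0) → 0 < m → ∃ l, τ l = 0

/-- a polynomial relation of total degree `≤ δ` with coefficients in the space `V` -/
def Rel (δ : ℕ) (V : Submodule ℚ ℂ) {σ : Type} (x : σ → ℂ) : Prop :=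
  ∃ P : MvPolynomial σ ℂ, P ≠ 0 ∧ P.totalDegree ≤ δ ∧ (∀ s, P.coeff s ∈ V) ∧ MvPolynomial.aeval x P = 0

/-- the numbers `K(1/t)`, `E(1/t)`, `K(1 - 1/t)` -/
noncomputable def per (t : ℕ) : Fin 3 → ℂ := ![(KK (1 / t) : ℂ), (EE (1 / t) : ℂ), (KK (1 - 1 / t) : ℂ)]

/-- in a window of length `H` there are few bad points -/
def T_win : Prop := ∀ δ D : ℕ, ∃ M E : ℕ, ∀ (V : Submodule ℚ ℂ), Module.Finite ℚ V → Module.finrank ℚ V ≤ D →
  ∀ (H t : ℕ), (H + 2) ^ E ≤ t → ∀ S : Finset ℕ, (∀ g ∈ S, g ≤ H ∧ Rel δ V (per (t - g))) → S.card ≤ M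

end Pool.Agent.Y113
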